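import Pool.Agent.R243.HS.Main

set_option autoImplicit false

/-!
# The Haar shift of the indicator function of a set

The Haar shift `T` (the bounded operator on `L²(ℝ)` with `T h_{I_+} = h_{I_-}`,
`T h_{I_-} = - h_{I_+}` for all dyadic intervals `I`) exists and is unique, and
`∫_V (T 1_V)² ≤ (47/48) |V|` for every measurable set `V` of finite measure.
-/

open MeasureTheory

noncomputable section

namespace Pool.Agent.Results.MP_02a511_an.HaarShiftIndicator

/-- The dyadic interval `[k 2^j, (k+1) 2^j)`. Its left half is `dyadic (j-1) (2k)` and its right half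
is `dyadic (j-1) (2k+1)`. -/
def dyadic (j k : ℤ) : Set ℝ := Set.Ico ((k : ℝ) * (2:ℝ) ^ j) (((k : ℝ) + 1) * (2:ℝ) ^ j)

/-- The Haar function `h_J = |J|^(-1/2) (1_{J_+} - 1_{J_-})` of `J = [k 2^j, (k+1) 2^j)`. -/
def haarFun (j k : ℤ) (x : ℝ) : ℝ :=
  (Real.sqrt ((2:ℝ) ^ j))⁻¹ * ((dyadic (j - 1) (2 * k + 1)).indicator (fun _ => (1:ℝ)) x -
    (dyadic (j - 1) (2 * k)).indicator (fun _ => (1:ℝ)) x)

theorem memLp_haarFun (j k : ℤ) : MemLp (haarFun j k) 2 volume :=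
  Pool.Agent.R243.HS.memLp_haarFun j k

/-- The real Hilbert space `L²(ℝ)`. -/
abbrev L2R : Type := Lp ℝ 2 (volume : Measure ℝ)

/-- The Haar function as an element of `L²(ℝ)`. -/
def haar (j k : ℤ) : L2R := (memLp_haarFun j k).toLp

/-- `T` is the Haar shift: `T h_{I_+} = h_{I_-}` and `T h_{I_-} = - h_{I_+}` for every dyadic interval
`I = [k 2^j, (k+1) 2^j)`. -/
def IsHaarShift (T : L2R →L[ℝ] L2R) : Prop :=
  ∀ j k : ℤ, T (haar (j - 1) (2 * k + 1)) = haar (j - 1) (2 * k) ∧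
    T (haar (j - 1) (2 * k)) = - haar (j - 1) (2 * k + 1)

/-- `∫_V (T 1_V)² ≤ η |V|` for every measurable set `V ⊆ ℝ` with `|V| < ∞`. -/
def IndicatorBound (T : L2R →L[ℝ] L2R) (η : ℝ) : Prop :=
  ∀ (V : Set ℝ) (hV : MeasurableSet V) (hfin : volume V ≠ ⊤),
    ∫ x in V, (T (indicatorConstLp 2 hV hfin (1:ℝ))) x ^ 2 ≤ η * (volume V).toReal

/-- **Theorem.** There is exactly one Haar shift `T`, and it satisfies `∫_V (T 1_V)² ≤ (47/48) |V|` for every measurable set `V ⊆ ℝ` with `|V| < ∞`. -/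
theorem result : (∃! T : L2R →L[ℝ] L2R, IsHaarShift T) ∧
    ∀ T : L2R →L[ℝ] L2R, IsHaarShift T → IndicatorBound T (47 / 48) :=
  ⟨Pool.Agent.R243.HS.existsUnique_shift,
    fun _ hT _ hV hfin => Pool.Agent.R243.HS.shift_bound hV hfin hT⟩

end Pool.Agent.Results.MP_02a511_an.HaarShiftIndicator
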